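import Pool.Agent.helper7.UL.Spec

/-!
# MP_62ffdf_lc, row EVN: the even numbers
-/

set_option autoImplicit false

namespace Pool.Agent.UL

open Finset

theorem EVN (h1 : OEV_stmt) (h2 : CRD_stmt) (h3 : RUN_stmt) (h4 : TRC_stmt) (h5 : MCC_stmt)
    (h6 : SMA_stmt) (h7 : REP_stmt) (h8 : DLT_stmt) : EVN_stmt := by
  intro R o X S P N W hchk hW ho hcop n hn
  obtain ⟨hTab, _⟩ := h3 R o X S P N hchk
  have hR := hTab.hR
  have ho7 := hTab.ho
  have hodd := hTab.hodd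
  obtain ⟨hT0, hTr⟩ := h4 R o W hTab (by omega) ho hcop
  have hoW : o < W - 1 := by
    have h9 : o ≠ W - 1 := by
      intro h
      rw [← h, Nat.coprime_self] at hcop
      omega
    omega
  obtain ⟨_, _, hRep0, hDel, _⟩ := h1 o (W - 1) (Tset R o W) hodd hoW hT0 hTr
  -- coordinates
  set M : ℕ := n - o with hM
  have hMn : M + o = n := by omega
  obtain ⟨J, hJ, I, hJI⟩ := (h2 o W (by omega) (by omega) hcop).1 (M : ℤ)
  obtain ⟨r1, r2, r3, r4⟩ := h7 R o W (by omega) (by omega) hcop J hJ I M hJI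
  obtain ⟨d1, d2, d3⟩ := h8 o W (by omega) ho hcop J hJ I n (by
    have : (n : ℤ) = (M : ℤ) + o := by exact_mod_cast hMn.symm
    rw [this, hJI]
    ring) hn
  obtain ⟨s1, s2, s3, s4, s5⟩ := h6 R o W hTab hW
  set BR : ℕ × ℕ → Prop := fun q =>
    q.1 < q.2 ∧ q.1 ∈ Del o (W - 1) ∧ q.2 ∈ Del o (W - 1) ∧ q.1 + q.2 = n with hBR
  have hRep : ∀ p, Rep (Vset o (W - 1) (Tset R o W)) (2 * n) p ↔
      (∃ q, TR (Tset R o W) M q ∧ p = (o + 2 * q.1, o + 2 * q.2)) ∨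
        ∃ q, BR q ∧ p = (2 * q.1, 2 * q.2) := by
    intro p
    rw [hRep0 n p]
    constructor
    · rintro (⟨q, a1, a2, a3, a4, a5⟩ | ⟨q, a1, a2, a3, a4, a5⟩)
      · exact Or.inl ⟨q, ⟨a1, a2, a3, by omega⟩, a5⟩
      · exact Or.inr ⟨q, ⟨a1, a2, a3, a4⟩, a5⟩
    · rintro (⟨q, ⟨a1, a2, a3, a4⟩, a5⟩ | ⟨q, ⟨a1, a2, a3, a4⟩, a5⟩)
      · exact Or.inl ⟨q, a1, a2, a3, by omega, a5⟩
      · exact Or.inr ⟨q, a1, a2, a3, a4, a5⟩
  -- the four situations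
  have cTwo : (∃ p p', TR (Tset R o W) M p ∧ TR (Tset R o W) M p' ∧ p ≠ p') →
      ¬ ∃! p, Rep (Vset o (W - 1) (Tset R o W)) (2 * n) p := by
    rintro ⟨p, p', b1, b2, b3⟩ ⟨x, _, hx⟩
    have e1 := hx _ ((hRep _).2 (Or.inl ⟨p, b1, rfl⟩))
    have e2 := hx _ ((hRep _).2 (Or.inl ⟨p', b2, rfl⟩))
    rw [← e2, Prod.mk.injEq] at e1
    apply b3
    apply Prod.ext
    · omega
    · omega
  have cNon : (∀ p, ¬ TR (Tset R o W) M p) → (∀ q, ¬ BR q) →
      ¬ ∃! p, Rep (Vset o (W - 1) (Tset R o W)) (2 * n) p := by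
    rintro b1 b2 ⟨x, hx, _⟩
    rcases (hRep x).1 hx with ⟨q, hq, _⟩ | ⟨q, hq, _⟩
    · exact b1 q hq
    · exact b2 q hq
  have cOne : (∃! p, TR (Tset R o W) M p) → (∀ q, ¬ BR q) →
      ∃! p, Rep (Vset o (W - 1) (Tset R o W)) (2 * n) p := by
    rintro ⟨p, hp, hpu⟩ b2
    refine ⟨(o + 2 * p.1, o + 2 * p.2), (hRep _).2 (Or.inl ⟨p, hp, rfl⟩), ?_⟩
    intro y hy
    rcases (hRep y).1 hy with ⟨q, hq, e⟩ | ⟨q, hq, _⟩
    · rw [e, hpu q hq]
    · exact absurd hq (b2 q)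
  have cBoth : (∃ p, TR (Tset R o W) M p) → (∃ q, BR q) →
      ¬ ∃! p, Rep (Vset o (W - 1) (Tset R o W)) (2 * n) p := by
    rintro ⟨p, b1⟩ ⟨q, b2⟩ ⟨x, _, hx⟩
    have e1 := hx _ ((hRep _).2 (Or.inl ⟨p, b1, rfl⟩))
    have e2 := hx _ ((hRep _).2 (Or.inr ⟨q, b2, rfl⟩))
    rw [← e2, Prod.mk.injEq] at e1
    omega
  rw [hDel n]
  by_cases hH : Hand W J I
  · rcases hH with hI | ⟨hJ1, hI⟩ | ⟨hJ2, hI⟩ | ⟨hJ0, hI⟩
    · -- `I < 0`
      refine iff_of_false ?_ (cNon (r2 (s1 J hJ I hI)) ?_)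
      · rw [d1]
        omega
      · rintro q ⟨a1, a2, a3, a4⟩
        have := d2 q a1 a2 a3 a4
        omega
    · by_cases hI0 : I < 0
      · refine iff_of_false ?_ (cNon (r2 (s1 J hJ I hI0)) ?_)
        · rw [d1]
          omega
        · rintro q ⟨a1, a2, a3, a4⟩
          have := d2 q a1 a2 a3 a4
          omega
      have hI0' : 0 ≤ I := not_lt.1 hI0
      have hB : ∀ q, ¬ BR q := by
        rintro q ⟨a1, a2, a3, a4⟩
        have := d2 q a1 a2 a3 a4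
        omega
      have hJc : J = 0 ∨ J = 1 := by omega
      rcases hJc with hJc | hJc
      · refine iff_of_false ?_ (cNon (r2 ?_) hB)
        · rw [d1]
          omega
        · rw [hJc]
          exact s2 I hI0' hI
      · refine iff_of_true ?_ (cOne (r3 ((0, 0), (1, I)) ?_) hB)
        · rw [d1]
          exact Or.inl ⟨hJc, hI0', hI⟩
        · rw [hJc]
          exact s3 I hI0' hI
    · by_cases hI0 : I < 0
      · refine iff_of_false ?_ (cNon (r2 (s1 J hJ I hI0)) ?_)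
        · rw [d1]
          omega
        · rintro q ⟨a1, a2, a3, a4⟩
          have := d2 q a1 a2 a3 a4
          omega
      have hI0' : 0 ≤ I := not_lt.1 hI0
      refine iff_of_false ?_ (cBoth (r4 ?_) (d3 hJ2 hI0' hI))
      · rw [d1]
        omega
      · rw [hJ2]
        exact s5 I hI0' hI
    · have hB : ∀ q, ¬ BR q := by
        rintro q ⟨a1, a2, a3, a4⟩
        have := d2 q a1 a2 a3 a4
        omega
      refine iff_of_true ?_ (cOne (r3 ((0, (W : ℤ) - 1), (0, (W : ℤ))) ?_) hB)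
      · rw [d1]
        exact Or.inr ⟨hJ0, hI⟩
      · rw [hJ0, hI]
        exact s4
  · have hnD : n ∉ Del o (W - 1) := by
      rw [d1]
      rintro (⟨b1, b2, b3⟩ | ⟨b1, b2⟩)
      · exact hH (Or.inr (Or.inl ⟨by omega, b3⟩))
      · exact hH (Or.inr (Or.inr (Or.inr ⟨b1, b2⟩)))
    refine iff_of_false hnD ?_
    rcases h5 R o X S P N W hchk hW J hJ I hH with hTwo | ⟨hNon, hAlw⟩
    · exact cTwo (r1 hTwo)
    · refine cNon (r2 hNon) ?_
      rintro q ⟨a1, a2, a3, a4⟩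
      have e := d2 q a1 a2 a3 a4
      unfold Alw at hAlw
      omega

end Pool.Agent.UL
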