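import Pool.Agent.helper7.UL.Spec

/-!
# MP_62ffdf_lc, row ULS: Ulam sequences and sets
-/

set_option autoImplicit false

namespace Pool.Agent.UL

open Finset

section
variable {a b : ℕ} {V : Set ℕ}

theorem ULS_ge (ha : 0 < a) (hab : a < b) (h1 : ∀ n ≤ b, n ∈ V ↔ n = a ∨ n = b) {n : ℕ}
    (hn : n ∈ V) : a ≤ n := by
  by_cases h : n ≤ b
  · rcases (h1 n h).1 hn with h2 | h2 <;> omega
  · omega

theorem ULS_next (ha : 0 < a) (hab : a < b) (h1 : ∀ n ≤ b, n ∈ V ↔ n = a ∨ n = b)
    (h2 : ∀ n, b < n → (n ∈ V ↔ ∃! p, Rep V n p)) {x : ℕ} (hx : x ∈ V) (hbx : b ≤ x) :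
    ∃ y ∈ V, x < y := by
  classical
  by_contra hcon
  push Not at hcon
  have haV : a ∈ V := (h1 a hab.le).2 (Or.inl rfl)
  -- the second largest element
  have hS : ((Finset.range x).filter (fun y => y ∈ V)).Nonempty :=
    ⟨a, Finset.mem_filter.2 ⟨Finset.mem_range.2 (by omega), haV⟩⟩
  obtain ⟨x', hx', hmax⟩ := Finset.exists_max_image _ (fun y => y) hS
  rw [Finset.mem_filter, Finset.mem_range] at hx'
  have hx'pos : a ≤ x' := ULS_ge ha hab h1 hx'.2
  have hmem : x + x' ∈ V := by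
    rw [h2 (x + x') (by omega)]
    refine ⟨(x', x), ⟨hx'.1, hx'.2, hx, by omega⟩, ?_⟩
    rintro ⟨q1, q2⟩ ⟨e1, e2, e3, e4⟩
    have e1 : q1 < q2 := e1
    have e2 : q1 ∈ V := e2
    have e3 : q2 ∈ V := e3
    have e4 : q1 + q2 = x + x' := e4
    have e5 := hcon q2 e3
    rcases Nat.lt_or_ge q2 x with e6 | e6
    · have e7 := hmax q2 (Finset.mem_filter.2 ⟨Finset.mem_range.2 e6, e3⟩)
      have e7 : q2 ≤ x' := e7
      omega
    · have e8 : q2 = x := by omega
      have e9 : q1 = x' := by omega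
      rw [e8, e9]
  have := hcon _ hmem
  omega

theorem ULS_inf (ha : 0 < a) (hab : a < b) (h1 : ∀ n ≤ b, n ∈ V ↔ n = a ∨ n = b)
    (h2 : ∀ n, b < n → (n ∈ V ↔ ∃! p, Rep V n p)) : V.Infinite := by
  have hb : b ∈ V := (h1 b le_rfl).2 (Or.inr rfl)
  have h3 : ∀ n, ∃ y ∈ V, n < y ∧ b ≤ y := by
    intro n
    induction n with
    | zero => exact ⟨b, hb, by omega, le_rfl⟩
    | succ n ih =>
      obtain ⟨y, hy, hny, hby⟩ := ih
      obtain ⟨z, hz, hyz⟩ := ULS_next ha hab h1 h2 hy hby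
      exact ⟨z, hz, by omega, by omega⟩
  refine Set.infinite_of_not_bddAbove ?_
  rintro ⟨B, hB⟩
  obtain ⟨y, hy, hBy, _⟩ := h3 B
  have := hB hy
  omega

end

theorem ULS : ULS_stmt := by
  intro a b V ha hab h1 h2
  have hinf : V.Infinite := ULS_inf ha hab h1 h2
  have hinf' : (setOf (· ∈ V)).Infinite := hinf
  refine ⟨hinf, ?_⟩
  set v : ℕ → ℕ := Nat.nth (· ∈ V) with hv
  have hmono : StrictMono v := Nat.nth_strictMono hinf'
  have hmem : ∀ n, v n ∈ V := Nat.nth_mem_of_infinite hinf'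
  have hsurj : ∀ x ∈ V, ∃ n, v n = x := by
    intro x hx
    have : x ∈ Set.range v := by
      rw [hv, Nat.range_nth_of_infinite hinf']
      exact hx
    exact this
  have haV : a ∈ V := (h1 a hab.le).2 (Or.inl rfl)
  have hbV : b ∈ V := (h1 b le_rfl).2 (Or.inr rfl)
  have hpos : ∀ n, 0 < v n := fun n => lt_of_lt_of_le ha (ULS_ge ha hab h1 (hmem n))
  have hv0 : v 0 = a := by
    obtain ⟨k, hk⟩ := hsurj a haV
    have e1 : v 0 ≤ v k := hmono.monotone (Nat.zero_le k)
    have e2 := ULS_ge ha hab h1 (hmem 0)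
    omega
  have hv1 : v 1 = b := by
    obtain ⟨k, hk⟩ := hsurj b hbV
    have hk0 : k ≠ 0 := by
      rintro rfl
      omega
    have e1 : v 1 ≤ v k := hmono.monotone (by omega)
    have e2 : v 0 < v 1 := hmono (by norm_num)
    rcases (h1 (v 1) (by omega)).1 (hmem 1) with e3 | e3
    · omega
    · exact e3
  -- the key equivalence
  have hkey : ∀ n m, 2 ≤ n → v (n - 1) < m → m ≤ v n →
      (m ∈ V ↔ ∃! p : ℕ × ℕ, p.1 < p.2 ∧ p.2 < n ∧ v p.1 + v p.2 = m) := by
    intro n m hn hm1 hm2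
    have hbm : b < m := by
      have : v 1 ≤ v (n - 1) := hmono.monotone (by omega)
      omega
    rw [h2 m hbm]
    constructor
    · rintro ⟨q, ⟨q1, q2, q3, q4⟩, hqu⟩
      obtain ⟨i, hi⟩ := hsurj _ q2
      obtain ⟨j, hj⟩ := hsurj _ q3
      have hij : i < j := by
        rw [← hmono.lt_iff_lt, hi, hj]
        exact q1
      have hjn : j < n := by
        rw [← hmono.lt_iff_lt]
        have := hpos i
        omega
      refine ⟨(i, j), ⟨hij, hjn, by
        show v i + v j = m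
        omega⟩, ?_⟩
      rintro ⟨i', j'⟩ ⟨e1, e2, e3⟩
      have e1 : i' < j' := e1
      have e3 : v i' + v j' = m := e3
      have e4 := hqu (v i', v j') ⟨hmono e1, hmem _, hmem _, e3⟩
      have e5 : v i' = q.1 := congrArg Prod.fst e4
      have e6 : v j' = q.2 := congrArg Prod.snd e4
      rw [← hi] at e5
      rw [← hj] at e6
      rw [hmono.injective e5, hmono.injective e6]
    · rintro ⟨⟨i, j⟩, ⟨e1, e2, e3⟩, hu⟩
      have e1 : i < j := e1
      have e3 : v i + v j = m := e3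
      refine ⟨(v i, v j), ⟨hmono e1, hmem _, hmem _, e3⟩, ?_⟩
      rintro q ⟨q1, q2, q3, q4⟩
      obtain ⟨i', hi⟩ := hsurj _ q2
      obtain ⟨j', hj⟩ := hsurj _ q3
      have hij : i' < j' := by
        rw [← hmono.lt_iff_lt, hi, hj]
        exact q1
      have hjn : j' < n := by
        rw [← hmono.lt_iff_lt]
        have := hpos i'
        omega
      have e4 := hu (i', j') ⟨hij, hjn, by
        show v i' + v j' = m
        omega⟩
      have e5 : i' = i := congrArg Prod.fst e4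
      have e6 : j' = j := congrArg Prod.snd e4
      rw [e5] at hi
      rw [e6] at hj
      exact Prod.ext hi.symm hj.symm
  have hvU : IsUlam a b v := by
    refine ⟨hv0, hv1, ?_⟩
    intro n hn
    have hlt : v (n - 1) < v n := hmono (by omega)
    refine ⟨⟨hlt, (hkey n (v n) hn hlt le_rfl).1 (hmem n)⟩, ?_⟩
    rintro m ⟨hm1, hm2⟩
    by_contra hcon
    have hm3 : m < v n := not_le.1 hcon
    have hmV : m ∈ V := (hkey n m hn hm1 hm3.le).2 hm2
    obtain ⟨k, hk⟩ := hsurj m hmV
    rw [← hk] at hm1 hm3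
    have e1 := hmono.lt_iff_lt.1 hm1
    have e2 := hmono.lt_iff_lt.1 hm3
    omega
  intro u
  constructor
  · rintro ⟨u0, u1, hu⟩
    funext n
    induction n using Nat.strong_induction_on with
    | _ n ih =>
      by_cases hn : n < 2
      · have hc : n = 0 ∨ n = 1 := by omega
        rcases hc with rfl | rfl
        · rw [u0, hv0]
        · rw [u1, hv1]
      · have hn2 : 2 ≤ n := by omega
        have e1 := hu n hn2
        have e2 := hvU.2.2 n hn2
        have e3 : {m | u (n - 1) < m ∧ ∃! p : ℕ × ℕ, p.1 < p.2 ∧ p.2 < n ∧ u p.1 + u p.2 = m} =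
            {m | v (n - 1) < m ∧ ∃! p : ℕ × ℕ, p.1 < p.2 ∧ p.2 < n ∧ v p.1 + v p.2 = m} := by
          ext m
          simp only [Set.mem_setOf_eq]
          rw [ih (n - 1) (by omega)]
          refine and_congr Iff.rfl ?_
          refine existsUnique_congr ?_
          intro p
          constructor
          · rintro ⟨q1, q2, q3⟩
            rw [ih p.1 (by omega), ih p.2 q2] at q3
            exact ⟨q1, q2, q3⟩
          · rintro ⟨q1, q2, q3⟩
            rw [← ih p.1 (by omega), ← ih p.2 q2] at q3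
            exact ⟨q1, q2, q3⟩
        rw [e3] at e1
        exact e1.unique e2
  · rintro rfl
    exact hvU

end Pool.Agent.UL
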