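import Pool.Agent.helper7.UL.SpecN

/-!
# MP_62ffdf_lc, row NIN: a structure in which definable relations do not shatter does not interpret arithmetic
-/

set_option autoImplicit false

namespace Pool.Agent.UL

open FirstOrder Language

/-- the embedding of the coordinates of the divisibility relation in those of the graph of multiplication -/
def NIN_phi (k : ℕ) : Fin k ⊕ Fin k → (Fin k ⊕ Fin k) ⊕ Fin k :=
  Sum.elim (fun i => Sum.inl (Sum.inl i)) (fun i => Sum.inr i)

theorem NIN : NIN_stmt := by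
  classical
  intro L M _ hVC hInt
  obtain ⟨k, D, f, _, hsurj, _, _, hMul⟩ := hInt
  set MS : Set ((Fin k ⊕ Fin k) ⊕ Fin k → M) := {v : (Fin k ⊕ Fin k) ⊕ Fin k → M |
      (v ∘ Sum.inl ∘ Sum.inl) ∈ D ∧ (v ∘ Sum.inl ∘ Sum.inr) ∈ D ∧ (v ∘ Sum.inr) ∈ D ∧
      f (v ∘ Sum.inl ∘ Sum.inl) * f (v ∘ Sum.inl ∘ Sum.inr) = f (v ∘ Sum.inr)} with hMS
  have hdef : (Set.univ : Set M).Definable L ((fun g => g ∘ NIN_phi k) '' MS) :=
    hMul.image_comp (NIN_phi k)
  obtain ⟨r, hr⟩ := hVC k k _ hdef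
  apply hr
  set p : Fin r → ℕ := fun i => Nat.nth Nat.Prime i with hp
  have hpp : ∀ i, (p i).Prime := fun i => Nat.prime_nth_prime i
  have hpi : Function.Injective p := by
    intro i j h
    exact Fin.ext (Nat.nth_injective Nat.infinite_setOf_prime h)
  choose a ha1 ha2 using fun i : Fin r => hsurj (p i)
  choose b hb1 hb2 using fun S : Set (Fin r) =>
    hsurj (∏ i ∈ Finset.univ.filter (fun i => i ∈ S), p i)
  refine ⟨a, b, ?_⟩
  intro i S
  constructor
  · rintro ⟨g, ⟨g1, g2, g3, g4⟩, hg⟩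
    have hg : g ∘ NIN_phi k = Sum.elim (a i) (b S) := hg
    have e1 : g ∘ Sum.inl ∘ Sum.inl = a i := by
      funext x
      exact congrFun hg (Sum.inl x)
    have e2 : g ∘ Sum.inr = b S := by
      funext x
      exact congrFun hg (Sum.inr x)
    rw [e1, e2, ha2, hb2] at g4
    have h1 : p i ∣ ∏ j ∈ Finset.univ.filter (fun j => j ∈ S), p j := ⟨_, g4.symm⟩
    obtain ⟨j, hj, hij⟩ := ((hpp i).prime.dvd_finset_prod_iff _).1 h1
    have h2 : p i = p j := (Nat.prime_dvd_prime_iff_eq (hpp i) (hpp j)).1 hij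
    rw [hpi h2]
    exact (Finset.mem_filter.1 hj).2
  · intro hi
    obtain ⟨c, hc⟩ : p i ∣ ∏ j ∈ Finset.univ.filter (fun j => j ∈ S), p j :=
      Finset.dvd_prod_of_mem p (Finset.mem_filter.2 ⟨Finset.mem_univ _, hi⟩)
    obtain ⟨z, hz1, hz2⟩ := hsurj c
    refine ⟨Sum.elim (Sum.elim (a i) z) (b S), ⟨?_, ?_, ?_, ?_⟩, ?_⟩
    · exact ha1 i
    · exact hz1
    · exact hb1 S
    · show f (a i) * f z = f (b S)
      rw [ha2, hz2, hb2, hc]
    · funext x
      rcases x with x | x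
      · rfl
      · rfl

end Pool.Agent.UL
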